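import Mathlib
import Pool.Agent.Helper65.MT.St
import Pool.Agent.Helper16.GL

set_option autoImplicit false

/-! # Project MT, module RN: nonvanishing with sharper denominators -/

open PowerSeries

namespace Pool.Agent.Helper57.MT

open Pool.Agent.Helper65.MT Pool.Agent.Helper16

lemma intg_B2 {ι : Type*} [Fintype ι] [DecidableEq ι] (x : ι → ℤ) (hx : Function.Injective x)
    (L : ι → ℕ) (j : ι) (V : ℤ) (hV : ∀ i, i ≠ j → (x j - x i) ∣ V) :
    Intg (∏ i ∈ Finset.univ.erase j, (x j - x i) ^ L i) V (B (fun i => (x i : ℝ)) L j) := by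
  refine Intg.prod _ _ _ _ fun i hi => Intg.pow ?_ _
  have h2 : x j - x i ≠ 0 := sub_ne_zero.mpr fun h => (Finset.ne_of_mem_erase hi) (hx h).symm
  have := intg_G (V := V) h2 (hV i (Finset.ne_of_mem_erase hi))
  push_cast at this
  exact this

lemma exists_int2 {ι : Type*} [Fintype ι] [DecidableEq ι] (x : ι → ℤ) (hx : Function.Injective x)
    (L : ι → ℕ) (p : ℕ) (hLp : ∀ j, L j ≤ p + 1) (j : ι) (V1 V2 : ℤ)
    (hV1 : ∏ i ∈ Finset.univ.erase j, (x j - x i) ∣ V1) (hV2 : ∀ i, i ≠ j → (x j - x i) ∣ V2)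
    (k : ℕ) (hk : k ≤ p) :
    ∃ n : ℤ, (V1 : ℝ) ^ (p + 1) * (V2 : ℝ) ^ p * coeff k (B (fun i => (x i : ℝ)) L j) = n := by
  obtain ⟨n, hn⟩ := intg_B2 x hx L j V2 hV2 k
  have h1 : ∏ i ∈ Finset.univ.erase j, (x j - x i) ^ L i ∣ V1 ^ (p + 1) := by
    refine dvd_trans ?_ (pow_dvd_pow_of_dvd hV1 (p + 1))
    rw [← Finset.prod_pow]
    exact Finset.prod_dvd_prod_of_dvd _ _ fun i _ => pow_dvd_pow _ (hLp i)
  obtain ⟨e, he⟩ := h1
  refine ⟨V2 ^ (p - k) * e * n, ?_⟩
  have h2 : (V1 : ℝ) ^ (p + 1) * (V2 : ℝ) ^ p =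
      (V2 : ℝ) ^ (p - k) * ((V1 ^ (p + 1) : ℤ) : ℝ) * (V2 : ℝ) ^ k := by
    push_cast
    have : (V2 : ℝ) ^ p = (V2 : ℝ) ^ (p - k) * (V2 : ℝ) ^ k := by
      rw [← pow_add]
      congr 1
      omega
    rw [this]
    ring
  rw [h2, he]
  push_cast
  rw [← hn]
  push_cast
  ring

theorem form_ne_zero2 {ι : Type*} [Fintype ι] [DecidableEq ι] (x : ι → ℤ)
    (hx : Function.Injective x) (z : ℕ) (b : ι → ℤ) (p : ℕ)
    (hp : p.Prime) (V1 V2 : ℤ) (hV1 : ∀ j, ∏ i ∈ Finset.univ.erase j, (x j - x i) ∣ V1)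
    (hV2 : ∀ i j, i ≠ j → (x j - x i) ∣ V2)
    (hpV1 : ¬ (p : ℤ) ∣ V1) (hpV2 : ¬ (p : ℤ) ∣ V2) (hpz : ¬ p ∣ z) (js : ι)
    (hbj : ¬ (p : ℤ) ∣ b js) :
    1 ≤ |(p.factorial : ℝ) * (V1 : ℝ) ^ (p + 1) * (V2 : ℝ) ^ p *
      ∑ j, A (fun i => (x i : ℝ)) (fun j => if j = js then p + 1 else p) z j * b j| := by
  set L : ι → ℕ := fun j => if j = js then p + 1 else p with hLdef
  have hLp : ∀ j, L j ≤ p + 1 := by
    intro j
    simp only [hLdef]
    split_ifs <;> omega
  have hLp' : ∀ j, L j - 1 ≤ p := fun j => by have := hLp j; omega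
  -- integers
  have hint : ∀ j, ∀ k, k ≤ p → ∃ n : ℤ,
      (V1 : ℝ) ^ (p + 1) * (V2 : ℝ) ^ p * coeff k (B (fun i => (x i : ℝ)) L j) = n :=
    fun j k hk => exists_int2 x hx L p hLp j V1 V2 (hV1 j) (fun i hi => hV2 i j hi) k hk
  choose! w hw using hint
  have hdesc : ∀ a, a ≤ p → (p.factorial : ℝ) = (a.factorial : ℝ) * (p.descFactorial (p - a) : ℝ) := by
    intro a ha
    have := Nat.factorial_mul_descFactorial (Nat.sub_le p a)
    rw [Nat.sub_sub_self ha] at this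
    exact_mod_cast this.symm
  have hterm : ∀ j, (p.factorial : ℝ) * (V1 : ℝ) ^ (p + 1) * (V2 : ℝ) ^ p *
      (A (fun i => (x i : ℝ)) L z j * b j) =
      ((∑ a ∈ Finset.HasAntidiagonal.antidiagonal (L j - 1),
        (p.descFactorial (p - a.1) : ℤ) * (z : ℤ) ^ a.1 * w j a.2 * b j : ℤ) : ℝ) := by
    intro j
    rw [A, Finset.sum_mul, Finset.mul_sum]
    push_cast
    refine Finset.sum_congr rfl fun a ha => ?_
    rw [Finset.HasAntidiagonal.mem_antidiagonal] at ha
    have ha1 : a.1 ≤ p := by have := hLp' j; omega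
    have ha2 : a.2 ≤ p := by have := hLp' j; omega
    rw [← hw j a.2 ha2, hdesc a.1 ha1]
    have : ((a.1.factorial : ℕ) : ℝ) ≠ 0 := by positivity
    field_simp
  have hdvd : ∀ a, a < p → (p : ℤ) ∣ (p.descFactorial (p - a) : ℤ) := by
    intro a ha
    obtain ⟨q, hq⟩ : ∃ q, p = q + 1 := ⟨p - 1, by have := hp.pos; omega⟩
    have h1 : p - a = (q - a) + 1 := by omega
    rw [h1]
    have h2 : (q + 1).descFactorial ((q - a) + 1) = (q + 1) * q.descFactorial (q - a) :=
      Nat.succ_descFactorial_succ _ _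
    rw [show p.descFactorial (q - a + 1) = p * q.descFactorial (q - a) by rw [hq] at *; exact h2]
    push_cast
    exact dvd_mul_right _ _
  set I : ℤ := ∑ j, ∑ a ∈ Finset.HasAntidiagonal.antidiagonal (L j - 1),
        (p.descFactorial (p - a.1) : ℤ) * (z : ℤ) ^ a.1 * w j a.2 * b j with hI
  have hsum : (p.factorial : ℝ) * (V1 : ℝ) ^ (p + 1) * (V2 : ℝ) ^ p *
      ∑ j, A (fun i => (x i : ℝ)) L z j * b j = (I : ℝ) := by
    rw [Finset.mul_sum, hI]
    push_cast
    refine Finset.sum_congr rfl fun j _ => ?_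
    rw [hterm j]
    push_cast
    rfl
  rw [hsum]
  suffices h : I ≠ 0 by
    have := Int.one_le_abs h
    exact_mod_cast this
  intro hI0
  -- reduce modulo p
  have hmod : (p : ℤ) ∣ I - (z : ℤ) ^ p * w js 0 * b js := by
    rw [hI, ← Finset.add_sum_erase _ _ (Finset.mem_univ js), add_sub_right_comm]
    refine dvd_add ?_ (Finset.dvd_sum fun j hj => Finset.dvd_sum fun a ha => ?_)
    · have hLj : L js - 1 = p := by simp [hLdef]
      rw [hLj, ← Finset.add_sum_erase _ _ (show (p, 0) ∈ Finset.HasAntidiagonal.antidiagonal p by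
        rw [Finset.HasAntidiagonal.mem_antidiagonal]; rfl)]
      have h0 : (p.descFactorial (p - (p, 0).1) : ℤ) * (z : ℤ) ^ (p, 0).1 * w js (p, 0).2 * b js -
          (z : ℤ) ^ p * w js 0 * b js = 0 := by
        simp
      rw [add_sub_right_comm, h0, zero_add]
      refine Finset.dvd_sum fun a ha => ?_
      rw [Finset.mem_erase, Finset.HasAntidiagonal.mem_antidiagonal] at ha
      have ha1 : a.1 < p := by
        rcases Nat.lt_or_ge a.1 p with h | h
        · exact h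
        · exfalso
          apply ha.1
          ext <;> simp <;> omega
      rw [mul_assoc, mul_assoc]
      exact Dvd.dvd.mul_right (hdvd _ ha1) _
    · rw [Finset.HasAntidiagonal.mem_antidiagonal] at ha
      have hLj : L j = p := by simp [hLdef, Finset.ne_of_mem_erase hj]
      have hpp := hp.pos
      have ha1 : a.1 < p := by omega
      rw [mul_assoc, mul_assoc]
      exact Dvd.dvd.mul_right (hdvd _ ha1) _
  rw [hI0, zero_sub, dvd_neg] at hmod
  have hpZ : Prime (p : ℤ) := Nat.prime_iff_prime_int.mp hp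
  rcases hpZ.dvd_or_dvd hmod with h | h
  · rcases hpZ.dvd_or_dvd h with h | h
    · have := hpZ.dvd_of_dvd_pow h
      exact hpz (by exact_mod_cast this)
    · -- p divides w js 0, hence V1 ^ (p+1) * V2 ^ p
      have h1 := hw js 0 (Nat.zero_le _)
      have h2 := coeff_zero_B (fun i => (x i : ℝ)) L js
      have h3 : ∏ i ∈ Finset.univ.erase js, (((x js : ℝ) - x i)⁻¹ * ((x js : ℝ) - x i)) ^ L i = 1 := by
        refine Finset.prod_eq_one fun i hi => ?_
        have h4 : (x js : ℝ) - x i ≠ 0 := by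
          intro h5
          have : (x js : ℝ) = x i := sub_eq_zero.mp h5
          exact (Finset.ne_of_mem_erase hi) (hx (by exact_mod_cast this)).symm
        rw [inv_mul_cancel₀ h4, one_pow]
      rw [h3] at h2
      have h5 : V1 ^ (p + 1) * V2 ^ p = w js 0 * ∏ i ∈ Finset.univ.erase js, (x js - x i) ^ L i := by
        have : ((V1 ^ (p + 1) * V2 ^ p : ℤ) : ℝ) =
            ((w js 0 * ∏ i ∈ Finset.univ.erase js, (x js - x i) ^ L i : ℤ) : ℝ) := by
          push_cast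
          rw [← h1, mul_assoc ((V1 : ℝ) ^ (p + 1) * (V2 : ℝ) ^ p), h2, mul_one]
        exact_mod_cast this
      have h6 : (p : ℤ) ∣ V1 ^ (p + 1) * V2 ^ p := by
        rw [h5]
        exact Dvd.dvd.mul_right h _
      rcases hpZ.dvd_or_dvd h6 with h7 | h7
      · exact hpV1 (hpZ.dvd_of_dvd_pow h7)
      · exact hpV2 (hpZ.dvd_of_dvd_pow h7)
  · exact hbj h

theorem m_RN : StRN := by
  intro m x hx z b p hp V1 V2 hV1 hV2 hpV1 hpV2 hpz js hbj
  exact form_ne_zero2 x hx z b p hp V1 V2 hV1 hV2 hpV1 hpV2 hpz js hbj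

end Pool.Agent.Helper57.MT
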